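import Mathlib
import Pool.Agent.Helper599.Core
import Pool.Agent.Helper599.Source
import Pool.Agent.Helper599.Auto
import Pool.Agent.Helper599.Fin1

set_option autoImplicit false

namespace Pool.Agent.Results.MP_56d946_al.Undecidable

open Equiv

section Raw

variable {m n : ℕ} (next : Fin m → Fin n → Fin m) (out : Fin m → Perm (Fin n))

/-- The action of the states on words: `s (x w) = out s x, (next s x) (w)`. -/
def act : Fin m → List (Fin n) → List (Fin n)
  | _, [] => []
  | s, x :: w => out s x :: act (next s x) w

/-- The inverse action. -/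
def actInv : Fin m → List (Fin n) → List (Fin n)
  | _, [] => []
  | s, y :: w => (out s).symm y :: actInv (next s ((out s).symm y)) w

theorem actInv_act (s : Fin m) (w : List (Fin n)) :
    actInv next out s (act next out s w) = w := by
  induction w generalizing s with
  | nil => rfl
  | cons x w ih => simp [act, actInv, ih]

theorem act_actInv (s : Fin m) (w : List (Fin n)) :
    act next out s (actInv next out s w) = w := by
  induction w generalizing s with
  | nil => rfl
  | cons x w ih => simp [act, actInv, ih]

/-- The permutation of all words given by a state. -/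
def perm (s : Fin m) : Perm (List (Fin n)) :=
  ⟨act next out s, actInv next out s, actInv_act next out s, act_actInv next out s⟩

/-- The self-similar group generated by all states. -/
def groupOf : Subgroup (Perm (List (Fin n))) := Subgroup.closure (Set.range (perm next out))

/-- The finite tables: the numbers of states and letters, and for every state `s` the list, over
all letters `x`, of the pairs (next state, output letter). -/
def tablesOf : ℕ × ℕ × List (List (ℕ × ℕ)) :=
  (m, n, List.ofFn fun s => List.ofFn fun x => ((next s x : ℕ), (out s x : ℕ)))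

end Raw

/-- A finite invertible automaton with `m` states over an alphabet with `n` letters: in state `s`
the letter `x` is replaced by `out s x` and the next state is `next s x`. -/
structure Automaton where
  m : ℕ
  n : ℕ
  pos : 0 < m
  two_le : 2 ≤ n
  next : Fin m → Fin n → Fin m
  out : Fin m → Perm (Fin n)

/-- The self-similar group of an automaton: the group of permutations of the words over the
alphabet generated by all states. -/
def Automaton.group (A : Automaton) : Subgroup (Perm (List (Fin A.n))) := groupOf A.next A.out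

/-- The finite tables of an automaton. -/
def Automaton.tables (A : Automaton) : ℕ × ℕ × List (List (ℕ × ℕ)) := tablesOf A.next A.out

open Pool.Agent.Helper599.Auto Pool.Agent.Helper599.Core Pool.Agent.Helper599.Fin1
open Pool.Agent.Helper599

section Transfer

variable {S X : Type} [Finite X] (R : Real S X) {m n : ℕ} (eS : S ≃ Fin m) (eX : X ≃ Fin n)

/-- transitions on `Fin m` -/
def tNext (s : Fin m) (x : Fin n) : Fin m := eS (R.next (eS.symm s) (eX.symm x))

/-- outputs on `Fin n` -/
noncomputable def tOut (s : Fin m) : Perm (Fin n) := (eX.symm.trans (Equiv.ofBijective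
  (R.o (eS.symm s)) (Finite.injective_iff_bijective.1 (R.o_inj (eS.symm s))))).trans eX

theorem tOut_apply (s : Fin m) (x : Fin n) :
    tOut R eS eX s x = eX (R.o (eS.symm s) (eX.symm x)) := rfl

theorem t_act (s : S) (w : List X) :
    act (tNext R eS eX) (tOut R eS eX) (eS s) (w.map eX) = (R.F s w).map eX := by
  induction w generalizing s with
  | nil => rw [R.nil]; rfl
  | cons x w ih =>
    rw [R.cons, List.map_cons, List.map_cons, ← ih]
    simp only [act, tOut_apply, tNext, Equiv.symm_apply_apply]

theorem t_perm (s : S) : perm (tNext R eS eX) (tOut R eS eX) (eS s) =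
    (Equiv.listEquivOfEquiv eX).permCongrHom (R.F s) := by
  apply Equiv.ext
  intro w
  obtain ⟨w, rfl⟩ := (Equiv.listEquivOfEquiv eX).surjective w
  change act (tNext R eS eX) (tOut R eS eX) (eS s) (w.map eX) = _
  rw [t_act, Equiv.permCongrHom_coe, Equiv.permCongr_apply, Equiv.symm_apply_apply]
  rfl

theorem t_group : groupOf (tNext R eS eX) (tOut R eS eX) =
    R.G.map ((Equiv.listEquivOfEquiv eX).permCongrHom : Perm (List X) →* Perm (List (Fin n))) := by
  unfold groupOf Real.G
  rw [MonoidHom.map_closure]
  congr 1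
  ext f
  constructor
  · rintro ⟨s, rfl⟩
    refine ⟨R.F (eS.symm s), ⟨_, rfl⟩, ?_⟩
    have := t_perm R eS eX (eS.symm s)
    rw [Equiv.apply_symm_apply] at this
    rw [this]
    rfl
  · rintro ⟨_, ⟨s, rfl⟩, rfl⟩
    exact ⟨eS s, t_perm R eS eX s⟩

theorem t_iso : Nonempty (groupOf (tNext R eS eX) (tOut R eS eX) ≃* R.G) := by
  have h := t_group R eS eX
  have e1 := Equiv.listEquivOfEquiv eX
  let φ : Perm (List X) ≃* Perm (List (Fin n)) := (Equiv.listEquivOfEquiv eX).permCongrHom
  have e2 : R.G ≃* R.G.map (φ : Perm (List X) →* Perm (List (Fin n))) :=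
    R.G.equivMapOfInjective (φ : Perm (List X) →* Perm (List (Fin n))) φ.injective
  exact ⟨(MulEquiv.subgroupCongr h).trans e2.symm⟩

end Transfer

section Tables

variable {S X : Type} [Finite X] (R : Real S X) {m n k : ℕ} [NeZero k]
  (eS : S ≃ Fin m) (eX : X ≃ Fin n) (σ : Fin k → S) (s0 : S) (h0 : R.F s0 = 1)

/-- numbering of the states -/
def eSt : S ⊕ Unit ≃ Fin (m + 1) :=
  (Equiv.sumCongr eS (Equiv.equivPUnit (Fin 1)).symm).trans finSumFinEquiv

/-- numbering of the letters -/
def eLet : X ⊕ Fin k ≃ Fin (n + k) :=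
  (Equiv.sumCongr eX (Equiv.refl _)).trans finSumFinEquiv

theorem ofFn_range {α : Type} (k : ℕ) (f : Fin k → α) (g : ℕ → α) (h : ∀ i : Fin k, f i = g i) :
    List.ofFn f = (List.range k).map g := by
  apply List.ext_getElem
  · simp
  · intro i h1 h2
    simp [h]

/-- the fixed part of the tables -/
def rows0 : List (List (ℕ × ℕ)) :=
  List.ofFn fun s : Fin m => List.ofFn fun x : Fin n =>
    ((eS (R.next (eS.symm s) (eX.symm x)) : ℕ), (eX (R.o (eS.symm s) (eX.symm x)) : ℕ))

theorem tables_eq (τ : ℕ → ℕ) (hτ : ∀ y : Fin k, (eS (σ y) : ℕ) = τ y) :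
    tablesOf (tNext (R.extend σ s0 h0) (eSt eS) (eLet (k := k) eX))
      (tOut (R.extend σ s0 h0) (eSt eS) (eLet (k := k) eX)) = (m + 1, n + k,
      (rows0 R eS eX).map (fun row => row ++ (List.range k).map (fun y => ((eS s0 : ℕ), n + y))) ++
      [(List.range n).map (fun x => ((eS s0 : ℕ), x)) ++
        (List.range k).map (fun y => (τ y, n + (y + 1) % k))]) := by
  unfold tablesOf
  congr 2
  have hx1 : ∀ x : Fin n, (eLet (k := k) eX).symm (Fin.castAdd k x) = .inl (eX.symm x) := by
    intro x; simp [eLet]
  have hx1' : ∀ x : Fin n, (eLet (k := k) eX).symm (Fin.castLE (Nat.le_add_right n k) x) =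
    .inl (eX.symm x) := hx1
  have hx2 : ∀ y : Fin k, (eLet (k := k) eX).symm (Fin.natAdd n y) = .inr y := by
    intro x; simp [eLet]
  have hs1 : ∀ s : Fin m, (eSt eS).symm s.castSucc = .inl (eS.symm s) := by
    intro s
    have : s.castSucc = Fin.castAdd 1 s := rfl
    rw [this]; simp [eSt]
  have hs2 : (eSt eS).symm (Fin.last m) = .inr () := by
    have : Fin.last m = Fin.natAdd m (0 : Fin 1) := rfl
    rw [this]; simp [eSt]
  have gs1 : ∀ s : S, ((eSt eS (.inl s) : Fin (m + 1)) : ℕ) = eS s := by
    intro s; simp [eSt]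
  have gx1 : ∀ x : X, ((eLet (k := k) eX (.inl x) : Fin (n + k)) : ℕ) = eX x := by
    intro s; simp [eLet]
  have gx2 : ∀ y : Fin k, ((eLet (k := k) eX (.inr y) : Fin (n + k)) : ℕ) = n + y := by
    intro s; simp [eLet]
  rw [List.ofFn_succ_last]
  congr 1
  · unfold rows0
    rw [List.map_ofFn]
    congr 1
    funext s
    simp only [Function.comp]
    rw [List.ofFn_add]
    congr 1
    · congr 1
      funext x
      simp only [tNext, tOut_apply, hs1, hx1', Real.extend, gs1, gx1]
    · apply ofFn_range
      intro y
      simp only [tNext, tOut_apply, hs1, hx2, Real.extend, gs1, gx2]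
  · congr 1
    rw [List.ofFn_add]
    congr 1
    · apply ofFn_range
      intro x
      simp only [tNext, tOut_apply, hs2, hx1', Real.extend, gs1, gx1, Equiv.apply_symm_apply]
    · apply ofFn_range
      intro y
      simp only [tNext, tOut_apply, hs2, hx2, Real.extend, gs1, gx2, hτ]
      congr 2
      rw [Fin.val_add]
      simp [Nat.add_mod]

end Tables


/-- number of the section at position `y` -/
def tauN (a b c d N y : ℕ) : ℕ :=
  if y < N then a else if y = N then b else if y < 2 * N + 1 then c else d

/-- The tables of the constructed automata. -/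
def tab (m0 n0 i0 a b c d : ℕ) (rows : List (List (ℕ × ℕ))) (N : ℕ) :
    ℕ × ℕ × List (List (ℕ × ℕ)) :=
  (m0 + 1, n0 + (2 * N + 2),
    rows.map (fun row => row ++ (List.range (2 * N + 2)).map (fun y => (i0, n0 + y))) ++
      [(List.range n0).map (fun x => (i0, x)) ++
        (List.range (2 * N + 2)).map (fun y => (tauN a b c d N y, n0 + (y + 1) % (2 * N + 2)))])

theorem tab_primrec (m0 n0 i0 a b c d : ℕ) (rows : List (List (ℕ × ℕ))) :
    Primrec (tab m0 n0 i0 a b c d rows) := by
  have hk : Primrec (fun N : ℕ => 2 * N + 2) :=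
    Primrec.nat_add.comp (Primrec.nat_mul.comp (Primrec.const 2) Primrec.id) (Primrec.const 2)
  have hL1 : Primrec (fun N : ℕ => (List.range (2 * N + 2)).map (fun y => (i0, n0 + y))) := by
    refine Primrec.list_map (Primrec.list_range.comp hk) ?_
    exact (Primrec.pair (Primrec.const i0)
      (Primrec.nat_add.comp (Primrec.const n0) Primrec.snd)).to₂
  have hτ : Primrec (fun p : ℕ × ℕ => tauN a b c d p.1 p.2) := by
    unfold tauN
    refine Primrec.ite (Primrec.nat_lt.comp Primrec.snd Primrec.fst) (Primrec.const a) ?_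
    refine Primrec.ite (Primrec.eq.comp Primrec.snd Primrec.fst) (Primrec.const b) ?_
    refine Primrec.ite (Primrec.nat_lt.comp Primrec.snd ?_) (Primrec.const c) (Primrec.const d)
    exact Primrec.nat_add.comp (Primrec.nat_mul.comp (Primrec.const 2) Primrec.fst)
      (Primrec.const 1)
  have hg : Primrec (fun p : ℕ × ℕ =>
      (tauN a b c d p.1 p.2, n0 + (p.2 + 1) % (2 * p.1 + 2))) :=
    Primrec.pair hτ (Primrec.nat_add.comp (Primrec.const n0)
      (Primrec.nat_mod.comp (Primrec.succ.comp Primrec.snd) (hk.comp Primrec.fst)))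
  have hL2 : Primrec (fun N : ℕ => (List.range (2 * N + 2)).map
      (fun y => (tauN a b c d N y, n0 + (y + 1) % (2 * N + 2)))) :=
    Primrec.list_map (Primrec.list_range.comp hk) hg.to₂
  unfold tab
  refine Primrec.pair (Primrec.const _) (Primrec.pair
    (Primrec.nat_add.comp (Primrec.const n0) hk) ?_)
  refine Primrec.list_append.comp ?_ ?_
  · refine Primrec.list_map (Primrec.const rows) ?_
    exact (Primrec.list_append.comp Primrec.snd (hL1.comp Primrec.fst)).to₂
  · refine Primrec.list_cons.comp ?_ (Primrec.const [])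
    exact Primrec.list_append.comp (Primrec.const _) hL2

/-- One fixed target: there is an automaton `B` such that no algorithm decides, given the tables
of an automaton `A`, whether the groups of `A` and `B` are isomorphic. -/
theorem fixed_target : ∃ B : Automaton, ¬ ∃ f : ℕ × ℕ × List (List (ℕ × ℕ)) → Bool,
    Computable f ∧ ∀ A : Automaton, f A.tables = true ↔ Nonempty (A.group ≃* B.group) := by
  classical
  obtain ⟨Q, hQ, M, q0, N, hl, hN, hnc⟩ := Source.exists_sys
  let R := base M
  let s0 : St Q Bool := .inl (tdec 0)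
  have h0 : R.F s0 = 1 := stF_id M
  let eS : St Q Bool ≃ Fin (Nat.card (St Q Bool)) := Finite.equivFin _
  let eX : M.X ≃ Fin (Nat.card M.X) := Finite.equivFin _
  let σ : ∀ N : ℕ, Fin (2 * N + 2) → St Q Bool := fun N y => secN q0 N y
  let A : ℕ → Automaton := fun N =>
    { m := Nat.card (St Q Bool) + 1
      n := Nat.card M.X + (2 * N + 2)
      pos := Nat.succ_pos _
      two_le := by omega
      next := tNext (R.extend (σ N) s0 h0) (eSt eS) (eLet (k := 2 * N + 2) eX)
      out := tOut (R.extend (σ N) s0 h0) (eSt eS) (eLet (k := 2 * N + 2) eX) }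
  -- the tables are computable
  have htab : ∃ t : ℕ → ℕ × ℕ × List (List (ℕ × ℕ)), Computable t ∧ ∀ N, (A N).tables = t N := by
    refine ⟨tab (Nat.card (St Q Bool)) (Nat.card M.X) (eS s0) (eS (.inl (tdec e1)))
      (eS (.inr (some q0))) (eS (.inl (tdec (-e1)))) (eS (.inr none)) (rows0 R eS eX),
      (tab_primrec _ _ _ _ _ _ _ _).to_comp, ?_⟩
    intro N
    refine tables_eq R eS eX (σ N) s0 h0 _ ?_
    intro y
    simp only [σ, secN, tauN]
    split_ifs <;> rfl
  obtain ⟨t, ht, hA⟩ := htab
  -- the group is a direct product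
  have hG : ∀ N, Nonempty ((A N).group ≃* R.G × Subgroup.zpowers (R.B (σ N))) := by
    intro N
    obtain ⟨e⟩ := t_iso (R.extend (σ N) s0 h0) (eSt eS) (eLet (k := 2 * N + 2) eX)
    exact ⟨e.trans (R.prodEquiv (σ N) s0 h0).symm⟩
  have hB : ∀ N, (∃ m, 0 < m ∧ R.B (σ N) ^ m = 1) ↔ M.Halts (some q0) (Source.ini N) :=
    fun N => B_finite M hl q0 N
  -- a non-halting input
  have hex : ∃ i, ¬ M.Halts (some q0) (Source.ini (N i)) := by
    by_contra hcon
    push Not at hcon
    apply hnc
    have : (fun n => M.Halts (some q0) (Source.ini (N n))) = fun _ => True := by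
      funext n; exact eq_true (hcon n)
    rw [this]
    exact ComputablePred.computable_iff.2 ⟨fun _ => true, Computable.const _, by simp⟩
  obtain ⟨i, hi⟩ := hex
  have hfin : ∀ p : ℕ, p.Prime → Finite (R.G →* Multiplicative (ZMod p)) := by
    intro p hp
    have : Fact p.Prime := ⟨hp⟩
    have : Finite (Multiplicative (ZMod p)) := inferInstanceAs (Finite (ZMod p))
    exact hom_finite (Set.range R.F) (Set.finite_range _) R.G rfl _
  refine ⟨A (N i), ?_⟩
  rintro ⟨f, hf, hcor⟩
  apply hnc
  have key : ∀ n, M.Halts (some q0) (Source.ini (N n)) ↔ f (t (N n)) = false := by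
    intro n
    rw [← hA, ← Bool.not_eq_true, hcor]
    obtain ⟨e1⟩ := hG (N n)
    obtain ⟨e2⟩ := hG (N i)
    have hinf : ∀ m : ℕ, 0 < m → R.B (σ (N i)) ^ m ≠ 1 := by
      intro m hm h
      exact hi ((hB _).1 ⟨m, hm, h⟩)
    constructor
    · intro h
      obtain ⟨m, hm, hbm⟩ := (hB (N n)).2 h
      have := not_iso (G := R.G) _ _ hfin m hm hbm hinf
      rintro ⟨e⟩
      exact this.false ((e1.symm.trans e).trans e2)
    · intro h
      by_contra hnh
      apply h
      have hinf2 : ∀ m : ℕ, 0 < m → R.B (σ (N n)) ^ m ≠ 1 := by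
        intro m hm h
        exact hnh ((hB _).1 ⟨m, hm, h⟩)
      obtain ⟨e⟩ := iso_of_infinite (G := R.G) _ _ hinf2 hinf
      exact ⟨(e1.trans e).trans e2.symm⟩
  have hc : Computable (fun n => !(f (t (N n)))) :=
    Primrec.not.to_comp.comp (hf.comp (ht.comp hN))
  refine ComputablePred.computable_iff.2 ⟨_, hc, ?_⟩
  funext n
  rw [eq_iff_iff, key n]
  simp

/-- The isomorphism problem for self-similar groups of finite automata is undecidable: no
computable function of the tables of two finite invertible automata decides whether the groups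
generated by them are isomorphic. -/
theorem result : ¬ ∃ f : (ℕ × ℕ × List (List (ℕ × ℕ))) × (ℕ × ℕ × List (List (ℕ × ℕ))) → Bool,
    Computable f ∧ ∀ A B : Automaton,
      f (A.tables, B.tables) = true ↔ Nonempty (A.group ≃* B.group) := by
  rintro ⟨f, hf, h⟩
  obtain ⟨B, hB⟩ := fixed_target
  exact hB ⟨fun x => f (x, B.tables), hf.comp (Computable.pair Computable.id (Computable.const _)),
    fun A => h A B⟩

end Pool.Agent.Results.MP_56d946_al.Undecidable
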